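import Pool.Agent.V11111.CC.Core

/-!
Kadison-Kastler close II_1 factors have the same coupling constant: there is a universal `δ > 0`
such that II_1 factors `M`, `N` on a Hilbert space `H` with `d(M, N) < δ` satisfy
`dim_M H = dim_N H`.

Idea. Close von Neumann algebras have close commutants with a universal constant (this uses the
innerness of derivations, solved in the starting library). Take a vector `ξ` with vector state
`τ(· p)` on `M`, a maximal abelian subalgebra `A` of `M` containing `p`, and conjugate `N` by a
unitary close to `1` so that `A` is contained in `N` and the unitaries of the commutant of `M`
implementing the right multiplications by the unitaries of `A` on `M ξ` lie in the commutant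
of `N`. Then the vector state of `ξ` on `N` is again `τ(· p)`, so the projection onto `M ξ` has
trace at least `‖ξ‖ ^ 2` with respect to both commutants, and a comparison of the dimension
functions of the two commutants gives the inequality of the dimensions.
-/

set_option autoImplicit false
open scoped InnerProductSpace ENNReal

namespace Pool.Agent.Results.MP_41729c_an.CouplingConstants

open V11111.CC

theorem result : ∃ δ : ℝ, 0 < δ ∧ ∀ (H : Type) [NormedAddCommGroup H]
    [InnerProductSpace ℂ H] [CompleteSpace H] (M N : VonNeumannAlgebra H),
    IsII1Factor M → IsII1Factor N → kkDist M N < δ →
    ∀ c d : ℝ≥0∞, IsDim M c → IsDim N d → c = d := main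

end Pool.Agent.Results.MP_41729c_an.CouplingConstants
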